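import Pool.Agent.H64.TaxiDef
import Pool.Agent.H64.TaxiProof

/-!
The disk with the hyperbolic-plus-taxicab metric is not of non-positive curvature in the sense of
Busemann.
-/

namespace Pool.Agent.Results.MP_b19ca0_gt.NotNonpositive

open Pool.Agent.H64.TaxiDisk

/-- The open unit disk with the metric `d = h + m` (Hilbert metric of the disk plus taxicab metric)
does not have non-positive curvature in the sense of Busemann. -/
theorem result : ¬ BusemannNonpositive := not_busemannNonpositive

end Pool.Agent.Results.MP_b19ca0_gt.NotNonpositive
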